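import Mathlib
import Pool.Agent.H85.RT.Defs
import Pool.Agent.H85.RTY.Defs
import Pool.Agent.H85.RTY.Final

/-!
# Return times for double recurrence averages: systems `X` with fourfold mixing at a logarithmic rate
-/

namespace Pool.Agent.H84.Kept.MP352bb5MixingSystems

open MeasureTheory Filter Topology Pool.Agent.H85.RT Pool.Agent.H85.RTY

universe u v

theorem result :
    (∀ (X : Type u) [MeasurableSpace X] (μ : Measure X) [IsProbabilityMeasure μ] (T : X ≃ᵐ X),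
      MeasurePreserving T μ μ → IsMix4 T μ → ∀ f g : X → ℂ, MemLp f ⊤ μ → MemLp g ⊤ μ →
      ∀ w : ℕ → ℂ, (∃ C : ℝ, ∀ n, ‖w n‖ ≤ C) →
      ∀ᵐ x ∂μ, Tendsto (fun N : ℕ => avg T f g w N x -
        (∫ x, f x ∂μ) * (∫ x, g x ∂μ) * ((∑ n ∈ Finset.Icc 1 N, w n) / N)) atTop (𝓝 0)) ∧
    (∀ (Ω : Type v) [MeasurableSpace Ω] (m : Measure Ω) [IsProbabilityMeasure m] (S : Ω ≃ᵐ Ω),
      MeasurePreserving S m m → ∀ h : Ω → ℂ, MemLp h ⊤ m →
      ∃ G : Set Ω, MeasurableSet G ∧ m G = 1 ∧ ∀ ω ∈ G, ∃ l : ℂ,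
        ∀ (X : Type u) [MeasurableSpace X] (μ : Measure X) [IsProbabilityMeasure μ] (T : X ≃ᵐ X),
          MeasurePreserving T μ μ → IsMix4 T μ → ∀ f g : X → ℂ, MemLp f ⊤ μ → MemLp g ⊤ μ →
          ∀ᵐ x ∂μ, Tendsto (fun N => avg T f g (fun n => h (S^[n] ω)) N x) atTop
            (𝓝 ((∫ x, f x ∂μ) * (∫ x, g x ∂μ) * l))) := by
  refine ⟨?_, ?_⟩
  · intro X _ μ _ T hT hmix f g hf hg w hw
    exact mix_main hT hmix hf hg hw
  · intro Ω _ m _ S hS h hh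
    exact exists_set (mix_return.{u, v} hS hh)

end Pool.Agent.H84.Kept.MP352bb5MixingSystems
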