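import Pool.Agent.H30.VMP.All

set_option autoImplicit false

/-!
# The Lang-Vojta question for very general log complete intersections

Let `F i = frmT c i` (`i` in a finite set `ι`) be forms of degrees `e i + 1` in `n + 1` variables,
all coefficients of all of them (`c`) algebraically independent over the rational numbers. Let `Z`
be a proper subset of `ι` with less than `n` elements and
`2 ∑ (e i + 1) + card Z ≥ 3 n + 2`, and let `X` be the variety given in projective `n`-space by
`F i = 0` for `i` in `Z` and `F i ≠ 0` for the other `i`. It is embedded in affine space by the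
functions `X ^ M / G`, where `G` is the product of the `F i`, `i` not in `Z`, and `M` runs over the
monomials of degree `deg G` (equations `eqsP Z c`). Then Q1 holds for `X` with a linear function
`β`, which depends on `n`, `e` and `Z` only. The exceptional set is swept out by the lines contained
in `F i = 0`, `i` in `Z`, which meet `G = 0` in at most two points; it is contained in a proper
closed subset `Ψ = 0` of `X`.
-/

namespace Pool.Agent.Results.MP_70ba79_ag.VeryGeneralIntersections

open MvPolynomial SC Pool.Agent.H27.LV Pool.Agent.H17.VG Pool.Agent.H30.VM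
open Pool.Agent.H17.CI (frmT upT)

theorem result : ∀ (n : ℕ) (ι : Type) [Fintype ι] [DecidableEq ι] (e : ι → ℕ) (Z : Finset ι),
    Z ≠ Finset.univ → Z.card < n → 3 * n + 2 ≤ 2 * ∑ i, (e i + 1) + Z.card →
    ∃ B : ℕ, ∀ (k : Type) [Field k] [IsAlgClosed k] [CharZero k]
    (c : (Σ i, Mon (n + 1) (e i + 1)) → k), AlgebraicIndependent ℚ c →
    DegreeBoundOff k (eqsP Z c) (excP Z c) (fun χ => B * χ) ∧
    (∃ Ψ : MvPolynomial (Mon (n + 1) (dgB e Z)) k,
      (∃ z : Mon (n + 1) (dgB e Z) → k, (∀ g ∈ eqsP Z c, aeval z g = 0) ∧ aeval z Ψ ≠ 0) ∧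
      ∀ (K : Type) [Field K] [Algebra k K] (z : Mon (n + 1) (dgB e Z) → K), excP Z c K z →
        aeval z Ψ = 0) ∧
    (∀ i, frmT c i = ∑ M : Mon (n + 1) (e i + 1), C (c ⟨i, M⟩) * ∏ a, X a ^ M.1 a) ∧
    ∀ (K : Type) [Field K] [Algebra k K] (z : Mon (n + 1) (dgB e Z) → K),
      (∀ g ∈ eqsP Z c, aeval z g = 0) ↔ ∃ x : Fin (n + 1) → K, (∃ p, x p = 1) ∧
        (∀ i, aeval x (frmT c i) = 0 ↔ i ∈ Z) ∧
        ∀ M : Mon (n + 1) (dgB e Z),
          z M = (∏ a, x a ^ M.1 a) / ∏ i ∈ Finset.univ \ Z, aeval x (frmT c i) := by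
  classical
  intro n ι _ _ e Z hZu hZ hne
  obtain ⟨B, hB⟩ := Pool.Agent.H30.VMP.fip_all n ι e Z hZu hZ hne
  refine ⟨B, ?_⟩
  intro k _ _ _ c hc
  obtain ⟨h1, h2, h3⟩ := hB k c hc
  refine ⟨h1, h2, ?_, ?_⟩
  · intro i
    unfold frmT frm
    refine Finset.sum_congr rfl fun M _ => ?_
    rw [mono, monomial_eq, map_one, one_mul, Finsupp.prod_fintype _ _ (fun a => pow_zero _)]
    rfl
  · intro K _ _ z
    rw [h3 K z]
    have h4 : ∀ (x : Fin (n + 1) → K) (G : MvPolynomial (Fin (n + 1)) k),
        eval x (up K G) = aeval x G := by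
      intro x G
      unfold up
      rw [eval_map, aeval_def]
    refine exists_congr fun x => ?_
    unfold IsPt
    have h5 : ∀ i, eval x (upT K (frmT c) i) = aeval x (frmT c i) := fun i => h4 x _
    have h6 : eval x (up K (bnd Z c)) = ∏ i ∈ Finset.univ \ Z, aeval x (frmT c i) := by
      rw [h4, bnd, map_prod]
    simp only [h5, h6]

end Pool.Agent.Results.MP_70ba79_ag.VeryGeneralIntersections
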